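import Pool.Agent.Helper48.A8.Sec

/-! Block M12 of the A8 project: `Ext(V,V) = 0` (helper48). Uses additionally `S_COCV`. -/

set_option autoImplicit false

namespace Pool.Agent.A8

open Matrix H48

namespace H48

theorem fix_gs_gt : ∀ m : V4, gs.1 *ᵥ m = m → gt.1 *ᵥ m = m → m = 0 ∨ m = b0 := by
  decide +kernel

theorem fix_gr_gs : ∀ m : V4, gr.1 *ᵥ m = m → gs.1 *ᵥ m = m → m = 0 := by
  decide +kernel

theorem gm_b0 : gm.1 *ᵥ b0 = b0 := by decide +kernel

theorem gs_gg : gs * gg = gg * (gs * gs) := by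
  apply Units.ext; decide +kernel

theorem gt_gg : gt * gg = gg * gt := by
  apply Units.ext; decide +kernel

theorem gm_gg : gm * gg = gg * gh := by
  rw [gm, inv_mul_cancel_right]

theorem TT_b0 {t : Gam} (ht : t ∈ TT) : t.1 *ᵥ b0 = b0 := by
  obtain ⟨h0, h1⟩ := ht
  funext i
  have e : ∀ i, (t.1 *ᵥ b0) i = t.1 i 0 := by
    intro i
    simp [b0, Matrix.mulVec, dotProduct, Fin.sum_univ_four]
  rw [e i]
  refine Fin.cases h0 (fun i => ?_) i
  rw [h1 i 0]
  fin_cases i <;> rfl

/-- conjugation by elements with first column `e₀` and first row `e₀*` -/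
theorem TT_conj {t : Gam} (ht : t ∈ TT) (g : Gam) (hg : ∀ i : Fin 3, g.1 i.succ 0 = 0)
    (hg' : g.1 0 0 = 1) (hgi : (g⁻¹).1 0 0 = 1)
    (hgi' : ∀ i : Fin 3, (g⁻¹).1 i.succ 0 = 0) : g * t * g⁻¹ ∈ TT := by
  obtain ⟨h0, h1⟩ := ht
  have hgt : ∀ (i : Fin 3) (j : Fin 4), (g.1 * t.1) i.succ j = g.1 i.succ j := by
    intro i j
    rw [Matrix.mul_apply, Fin.sum_univ_succ, hg i, zero_mul, zero_add]
    simp only [h1]
    have h2 : g.1 i.succ j = ∑ k : Fin 4, g.1 i.succ k * (1 : M4) k j := by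
      rw [← Matrix.mul_apply, Matrix.mul_one]
    rw [h2]
    conv_rhs => rw [Fin.sum_univ_succ, hg i, zero_mul, zero_add]
  refine ⟨?_, ?_⟩
  · -- entry (0,0)
    have hcol : ∀ k : Fin 4, (g.1 * t.1) k 0 = if k = 0 then 1 else 0 := by
      intro k
      refine Fin.cases ?_ (fun k => ?_) k
      · rw [Matrix.mul_apply, Fin.sum_univ_succ, h0, hg']
        simp [h1, Matrix.one_apply]
      · rw [hgt, hg]
        simp
    rw [Units.val_mul, Units.val_mul, Matrix.mul_apply, Fin.sum_univ_succ, hgi, hcol]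
    simp [hgi']
  · intro i j
    rw [Units.val_mul, Units.val_mul, Matrix.mul_apply]
    simp only [hgt]
    rw [← Matrix.mul_apply, ← Units.val_mul, mul_inv_cancel, Units.val_one]

theorem TT_conj_gh {t : Gam} (ht : t ∈ TT) : gh * t * gh⁻¹ ∈ TT :=
  TT_conj ht gh (by decide +kernel) (by decide +kernel) (by decide +kernel) (by decide +kernel)

theorem TT_conj_gs {t : Gam} (ht : t ∈ TT) : gs * t * gs⁻¹ ∈ TT :=
  TT_conj ht gs (by decide +kernel) (by decide +kernel) (by decide +kernel) (by decide +kernel)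

theorem TT_gt : gt ∈ TT := by
  refine ⟨by decide +kernel, by decide +kernel⟩

theorem TT_mul {t t' : Gam} (ht : t ∈ TT) (ht' : t' ∈ TT) : t * t' ∈ TT := by
  obtain ⟨h0, h1⟩ := ht
  obtain ⟨h0', h1'⟩ := ht'
  refine ⟨?_, ?_⟩
  · rw [Units.val_mul, Matrix.mul_apply, Fin.sum_univ_succ, h0, h0']
    simp [h1', Matrix.one_apply]
  · intro i j
    rw [Units.val_mul, Matrix.mul_apply]
    simp only [h1]
    rw [← Matrix.mul_apply, Matrix.one_mul, h1']

theorem m12core (hC : S_COCV) {X : Type} [AddCommGroup X] (A : Act2 X) (q : X → V4)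
    (hq : ∀ x y, q (x + y) = q x + q y) (hqe : ∀ g x, q (A.ρ g x) = g.1 *ᵥ q x)
    (i : V4 → X) (hi : ∀ m m', i (m + m') = i m + i m')
    (hie : ∀ (g : Gam) m, i (g.1 *ᵥ m) = A.ρ g (i m)) (hinj : Function.Injective i)
    (hker : ∀ x, q x = 0 ↔ ∃ m, i m = x) {x0 : X} (hx0 : q x0 = b0) :
    ∃ s : V4 → X, (∀ m m', s (m + m') = s m + s m') ∧
      (∀ (g : Gam) m, s (g.1 *ᵥ m) = A.ρ g (s m)) ∧ ∀ m, q (s m) = m := by
  classical
  obtain ⟨x, hx, hxh, hxs⟩ := exists_F q hq hqe hx0
  have hb : ∀ u : V4, u + u = 0 := fun u => funext fun j => zadd _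
  have hi0 : i 0 = 0 := by
    have h := hi 0 0
    rw [add_zero] at h
    exact left_eq_add.1 h
  -- the cocycle
  have hex : ∀ t : Gam, t.1 *ᵥ b0 = b0 → ∃ m, i m = A.ρ t x + x := by
    intro t ht
    rw [← hker, hq, hqe, hx, ht, hb]
  choose! l hl using hex
  have hTT : ∀ t ∈ TT, A.ρ t x = x := by
    have h1 := hC l (by
      intro t ht t' ht'
      apply hinj
      rw [act_MV]
      have e1 := hl _ (TT_b0 (TT_mul ht ht'))
      have e2 := hl _ (TT_b0 ht)
      have e3 := hl _ (TT_b0 ht')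
      refine e1.trans ?_
      have e4 : i (l t + t.1 *ᵥ l t') = i (l t) + A.ρ t (i (l t')) := by rw [hi, hie]
      refine Eq.trans ?_ e4.symm
      rw [e2, e3, A.add, A.mul]
      have := A.two (A.ρ t x)
      calc A.ρ t (A.ρ t' x) + x = (A.ρ t x + A.ρ t x) + (A.ρ t (A.ρ t' x) + x) := by
            rw [this, zero_add]
        _ = _ := by abel) (by
      intro t ht
      apply hinj
      rw [act_MV]
      have e1 := hl _ (TT_b0 (TT_conj_gh ht))
      have e2 := hl _ (TT_b0 ht)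
      have hxh' : A.ρ gh⁻¹ x = x := (A.stb x).inv_mem hxh
      refine e1.trans (Eq.symm ((hie _ _).trans ?_))
      rw [e2, A.add, A.mul, A.mul, hxh', hxh]) (by
      intro t ht
      apply hinj
      rw [act_MV]
      have e1 := hl _ (TT_b0 (TT_conj_gs ht))
      have e2 := hl _ (TT_b0 ht)
      have hxs' : A.ρ gs⁻¹ x = x := (A.stb x).inv_mem hxs
      refine e1.trans (Eq.symm ((hie _ _).trans ?_))
      rw [e2, A.add, A.mul, A.mul, hxs', hxs])
    intro t ht
    have e2 := hl _ (TT_b0 ht)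
    have h2 : l t = 0 := h1 t ht
    rw [h2, hi0] at e2
    exact A.eq_of_add e2.symm
  -- `gg`
  have hgt : A.ρ gt x = x := hTT gt TT_gt
  have hgm : A.ρ gm x = x := by
    have hgg0 : gg.1 *ᵥ b0 = b0 := by decide +kernel
    obtain ⟨m, hm⟩ : ∃ m, i m = A.ρ gg x + x := by
      rw [← hker, hq, hqe, hx, hgg0, hb]
    have h1 : A.ρ gs (A.ρ gg x) = A.ρ gg x := by
      rw [← A.mul, gs_gg, A.mul, A.mul, hxs, hxs]
    have h2 : A.ρ gt (A.ρ gg x) = A.ρ gg x := by
      rw [← A.mul, gt_gg, A.mul, hgt]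
    have h3 : gs.1 *ᵥ m = m := by
      apply hinj
      rw [hie, hm, A.add, h1, hxs]
    have h4 : gt.1 *ᵥ m = m := by
      apply hinj
      rw [hie, hm, A.add, h2, hgt]
    have h5 := fix_gs_gt m h3 h4
    have h6 : gm.1 *ᵥ m = m := by
      rcases h5 with rfl | rfl
      · exact Matrix.mulVec_zero _
      · exact gm_b0
    have h7 : x = A.ρ gg x + i m := by
      rw [hm]
      have := A.two (A.ρ gg x)
      calc x = (A.ρ gg x + A.ρ gg x) + x := by rw [this, zero_add]
        _ = _ := by abel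
    have h8 : A.ρ gm x = A.ρ gm (A.ρ gg x) + A.ρ gm (i m) := by
      conv_lhs => rw [h7]
      rw [A.add]
    rw [h8, ← A.mul, gm_gg, A.mul, hxh, ← hie, h6]
    exact h7.symm
  have hst : ∀ g : Gam, g.1 *ᵥ b0 = b0 → A.ρ g x = x :=
    fun g hg => stab_mem (A.stb x) hgt hxh hxs hgm g hg
  obtain ⟨sec, hs0, _, hsq, hse⟩ := exists_sec q hq hqe hx hst
  refine ⟨sec, ?_, hse, hsq⟩
  have hdef : sec b0 + sec b1 + sec (b0 + b1) = 0 := by
    obtain ⟨m, hm⟩ : ∃ m, i m = sec b0 + sec b1 + sec (b0 + b1) := by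
      rw [← hker, hq, hq, hsq, hsq, hsq]
      exact hb _
    have h1 : gr.1 *ᵥ m = m := by
      apply hinj
      rw [hie, hm, defect_gr hse]
    have h2 : gs.1 *ᵥ m = m := by
      apply hinj
      rw [hie, hm, defect_of_fix hse gs gs_b0 gs_b1]
    rw [← hm, fix_gr_gs m h1 h2, hi0]
  intro v w
  have hall : sec v + sec w + sec (v + w) = 0 := by
    by_cases h : v = 0 ∨ w = 0 ∨ v = w
    · exact defect_zero A hs0 v w h
    · push Not at h
      obtain ⟨g, hg0, hg1⟩ := exists_g2 v w h.1 h.2.1 h.2.2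
      have := defect_fix hse g b0 b1
      rw [hg0, hg1, hdef, A.zero] at this
      exact this.symm
  exact (A.eq_of_add hall).symm

/-- the module action -/
noncomputable def modAct (X : Type) [AddCommGroup X] [Module RG X] : Act2 X where
  ρ := act
  add := act_add
  one := act_one
  mul := act_mul
  two := add_self

/-- the twisted module action -/
noncomputable def twAct (X : Type) [AddCommGroup X] [Module RG X] : Act2 X where
  ρ g x := act (sig g) x
  add g := act_add _
  one x := by rw [map_one, act_one]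
  mul g h x := by rw [map_mul, act_mul]
  two := add_self

theorem act_MD' (g : Gam) (v : MD) : act (sig g) v = (g.1 *ᵥ v : Fin 4 → ZMod 2) := by
  rw [act_MD]
  have h : ((sig g)⁻¹).1ᵀ = g.1 := by
    change (g.1ᵀ)ᵀ = g.1
    exact Matrix.transpose_transpose _
  rw [h]

end H48

theorem bM3 (_h1 : S_SIM) (_h2 : S_END) (h3 : S_COCV) : S_M3 := by
  intro a ha X _ _ _ i q hinj hsurj hker
  cases a with
  | l => exact absurd rfl ha
  | v =>
    obtain ⟨x0, hx0⟩ := hsurj vE0
    obtain ⟨s, hs1, hs2, hs3⟩ := m12core h3 (modAct X) (fun x => (q x : MV)) (fun x y => map_add q x y)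
      (fun g x => (map_act q g x).trans (act_MV g (q x))) (fun m => i m)
      (fun m m' => map_add i m m')
      (fun g m => (congrArg i (act_MV g m).symm).trans (map_act i g m)) hinj hker hx0
    refine ⟨mkLin (AddMonoidHom.mk' s hs1) ?_, hs3⟩
    intro g m
    exact (congrArg s (act_MV g m)).trans (hs2 g m)
  | d =>
    obtain ⟨x0, hx0⟩ := hsurj dE0
    obtain ⟨s, hs1, hs2, hs3⟩ := m12core h3 (twAct X) (fun x => (q x : MD)) (fun x y => map_add q x y)
      (fun g x => (map_act q (sig g) x).trans (act_MD' g (q x))) (fun m => i m)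
      (fun m m' => map_add i m m')
      (fun g m => (congrArg i (act_MD' g m).symm).trans (map_act i (sig g) m)) hinj hker hx0
    refine ⟨mkLin (AddMonoidHom.mk' s hs1) ?_, hs3⟩
    intro g m
    have h := hs2 (sig g) m
    change s ((sig g).1 *ᵥ m) = act (sig (sig g)) (s m) at h
    rw [sig_sig] at h
    refine Eq.trans ?_ h
    exact congrArg s (act_MD g m)

end Pool.Agent.A8
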