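import Pool.Agent.Helper48.A8.M12

/-! Block M14 of the A8 project: equivariant sections for extensions of `V` by a sum of copies of
the exterior square (helper48). Uses additionally `S_COCL`. -/

set_option autoImplicit false

namespace Pool.Agent.A8

open Matrix H48

namespace H48

/-- scalar multiplication by `0, 1` -/
def sm {X : Type} [AddCommGroup X] (c : ZMod 2) (x : X) : X := if c = 0 then 0 else x

theorem sm_zero {X : Type} [AddCommGroup X] (x : X) : sm (0 : ZMod 2) x = 0 := by simp [sm]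
theorem sm_one {X : Type} [AddCommGroup X] (x : X) : sm (1 : ZMod 2) x = x := by simp [sm]
theorem z01 : ∀ c : ZMod 2, c = 0 ∨ c = 1 := by decide
theorem sm_eq (c : ZMod 2) (l : V6) : sm c l = c • l := by
  rcases z01 c with rfl | rfl
  · rw [sm_zero, zero_smul]
  · rw [sm_one, one_smul]

abbrev w01 : V6 := ![1, 0, 0, 0, 0, 0]
abbrev w23 : V6 := ![0, 0, 0, 0, 0, 1]

theorem L_gs : ∀ l : V6, actL gs.1 l = l → actL gr.1 l = l ∧ actL gg.1 l = l := by
  decide +kernel

/-- `e₁ ↦ e₁ + e₂` -/
def h21 : Gam := gh * gm * gh * gs * gh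

theorem h21_gt : h21 * gt = gt * h21 := by
  apply Units.ext; decide +kernel

theorem h21_w : actL h21.1 (w01 + w23) ≠ w01 + w23 := by decide +kernel

/-- `e₂ ↦ e₂ + e₀` -/
def u02 : Gam := gh * gh * gh * gh * gh * gt * gh * gh

theorem u02_b0 : u02.1 *ᵥ b0 = b0 := by decide +kernel
theorem u02_b1 : u02.1 *ᵥ b1 = b1 := by decide +kernel

theorem L_k : ∀ l : V6, actL gr.1 l = l → actL gs.1 l = l → actL u02.1 l = l →
    l = 0 ∨ l = w01 := by
  decide +kernel

theorem w01_eq : wdg b0 b1 = w01 := by decide +kernel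

theorem gg_gr2 : gg * (gr * gr) = gr * gr * gg := by
  apply Units.ext; decide +kernel

theorem gr3 : gr * (gr * gr) = 1 := by
  apply Units.ext; decide +kernel

theorem gs_gr2 : gs * (gr * gr) = gr * gr * gs := by
  apply Units.ext; decide +kernel

theorem sum_w (l : V6) : sm (l 0) (wdg b0 b1) + sm (l 1) (wdg b0 ![0,0,1,0]) +
    sm (l 2) (wdg b0 ![0,0,0,1]) + sm (l 3) (wdg b1 ![0,0,1,0]) + sm (l 4) (wdg b1 ![0,0,0,1]) +
    sm (l 5) (wdg ![0,0,1,0] ![0,0,0,1]) = l := by
  revert l
  decide +kernel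

theorem m14core (hC : S_COCL) {X : Type} [AddCommGroup X] (A : Act2 X) (q : X → V4)
    (hq : ∀ x y, q (x + y) = q x + q y) (hqe : ∀ g x, q (A.ρ g x) = g.1 *ᵥ q x)
    {T : Type} (f : T → X → V6)
    (hf : ∀ τ x y, q x = 0 → q y = 0 → f τ (x + y) = f τ x + f τ y)
    (hfe : ∀ τ (g : Gam) x, q x = 0 → f τ (A.ρ g x) = actL g.1 (f τ x))
    (hsep : ∀ x, q x = 0 → (∀ τ, f τ x = 0) → x = 0) {x0 : X} (hx0 : q x0 = b0) :
    ∃ (sec : V4 → X) (κ : V6 → X), (∀ m, q (sec m) = m) ∧
      (∀ (g : Gam) m, sec (g.1 *ᵥ m) = A.ρ g (sec m)) ∧ (∀ l, q (κ l) = 0) ∧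
      (∀ l l', κ (l + l') = κ l + κ l') ∧ (∀ (g : Gam) l, κ (actL g.1 l) = A.ρ g (κ l)) ∧
      ∀ m m', sec (m + m') = sec m + sec m' + κ (wdg m m') := by
  classical
  obtain ⟨x, hx, hxh, hxs⟩ := exists_F q hq hqe hx0
  have hb : ∀ u : V4, u + u = 0 := fun u => funext fun j => zadd _
  have hl2 : ∀ u : V6, u + u = 0 := fun u => funext fun j => zadd _
  have hq0 : q 0 = 0 := by
    have h := hq 0 0
    rw [add_zero] at h
    exact left_eq_add.1 h
  have hf0 : ∀ τ, f τ 0 = 0 := by
    intro τ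
    have h := hf τ 0 0 hq0 hq0
    rw [add_zero] at h
    exact left_eq_add.1 h
  have hqk : ∀ (g : Gam) {y : X}, q y = 0 → q (A.ρ g y) = 0 := by
    intro g y hy
    rw [hqe, hy, Matrix.mulVec_zero]
  -- separation of two elements of the kernel
  have hsep2 : ∀ y z, q y = 0 → q z = 0 → (∀ τ, f τ y = f τ z) → y = z := by
    intro y z hy hz h
    apply A.eq_of_add
    apply hsep
    · rw [hq, hy, hz, add_zero]
    · intro τ
      rw [hf τ y z hy hz, h τ, hl2]
  -- (a) `gg x = x`
  have hgg0 : gg.1 *ᵥ b0 = b0 := by decide +kernel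
  have hggx : A.ρ gg x = x := by
    obtain ⟨n, hn⟩ : ∃ n, n = A.ρ gg x + x := ⟨_, rfl⟩
    have hqn : q n = 0 := by rw [hn, hq, hqe, hx, hgg0, hb]
    obtain ⟨c, hc⟩ : ∃ c, c = x + A.ρ gr x + A.ρ (gr * gr) x := ⟨_, rfl⟩
    have hqc : q c = 0 := by
      rw [hc, hq, hq, hqe, hqe, hx]
      decide +kernel
    have hnx : A.ρ gg x = x + n := by
      rw [hn]
      have := A.two x
      calc A.ρ gg x = (x + x) + A.ρ gg x := by rw [this, zero_add]
        _ = _ := by abel
    have hns : A.ρ gs n = n := by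
      rw [hn, A.add, hxs, ← A.mul, gs_gg, A.mul, A.mul, hxs, hxs]
    have hcs : A.ρ gs c = c := by
      rw [hc, A.add, A.add, hxs, ← A.mul, ← A.mul, gs_gr, gs_gr2, A.mul gr, A.mul (gr * gr), hxs]
    have hnr : A.ρ gr n = n := by
      apply hsep2 _ _ (hqk _ hqn) hqn
      intro τ
      rw [hfe τ _ _ hqn]
      apply (L_gs _ ?_).1
      rw [← hfe τ _ _ hqn, hns]
    have hcg : A.ρ gg c = c := by
      apply hsep2 _ _ (hqk _ hqc) hqc
      intro τ
      rw [hfe τ _ _ hqc]
      apply (L_gs _ ?_).2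
      rw [← hfe τ _ _ hqc, hcs]
    have hcg' : A.ρ gg c = c + n := by
      rw [hc, A.add, A.add, ← A.mul, ← A.mul, gg_gr, gg_gr2, A.mul gr, A.mul (gr * gr), hnx,
        A.add, A.add, hnr, A.mul gr gr n, hnr, hnr]
      have := A.two n
      calc x + n + (A.ρ gr x + n) + (A.ρ (gr * gr) x + n)
          = x + A.ρ gr x + A.ρ (gr * gr) x + n + (n + n) := by abel
        _ = _ := by rw [this, add_zero]
    have hn0 : n = 0 := by
      rw [hcg] at hcg'
      exact left_eq_add.1 hcg'
    rw [hn] at hn0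
    exact A.eq_of_add hn0
  have hgm : A.ρ gm x = x := by
    have h1 : gg ∈ A.stb x := hggx
    exact (A.stb x).mul_mem ((A.stb x).mul_mem h1 hxh) ((A.stb x).inv_mem h1)
  have hh21 : A.ρ h21 x = x := by
    have m : ∀ {x' y : Gam}, x' ∈ A.stb x → y ∈ A.stb x → x' * y ∈ A.stb x :=
      fun hx hy => (A.stb x).mul_mem hx hy
    exact m (m (m (m hxh hgm) hxh) hxs) hxh
  -- (b) `gt x = x`
  have hgt : A.ρ gt x = x := by
    have hz : ∀ t ∈ TT, q (A.ρ t x + x) = 0 := by
      intro t ht
      rw [hq, hqe, hx, TT_b0 ht, hb]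
    have hz0 := hz gt TT_gt
    have hfix : A.ρ h21 (A.ρ gt x + x) = A.ρ gt x + x := by
      rw [A.add, ← A.mul, h21_gt, A.mul, hh21]
    have h0 : A.ρ gt x + x = 0 := by
      apply hsep _ hz0
      intro τ
      have h1 := hC (fun t => f τ (A.ρ t x + x)) (by
        intro t ht t' ht'
        rw [act_ML]
        have e1 : A.ρ (t * t') x + x = (A.ρ t x + x) + A.ρ t (A.ρ t' x + x) := by
          rw [A.add, A.mul]
          have := A.two (A.ρ t x)
          calc A.ρ t (A.ρ t' x) + x = (A.ρ t x + A.ρ t x) + (A.ρ t (A.ρ t' x) + x) := by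
                rw [this, zero_add]
            _ = _ := by abel
        change f τ (A.ρ (t * t') x + x) = f τ (A.ρ t x + x) + actL t.1 (f τ (A.ρ t' x + x))
        rw [e1, hf τ _ _ (hz t ht) (hqk _ (hz t' ht')), hfe τ _ _ (hz t' ht')]) (by
        intro t ht
        rw [act_ML]
        have hxh' : A.ρ gh⁻¹ x = x := (A.stb x).inv_mem hxh
        change f τ (A.ρ (gh * t * gh⁻¹) x + x) = actL gh.1 (f τ (A.ρ t x + x))
        rw [← hfe τ _ _ (hz t ht), A.add, A.mul, A.mul, hxh', hxh]) (by
        intro t ht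
        rw [act_ML]
        have hxs' : A.ρ gs⁻¹ x = x := (A.stb x).inv_mem hxs
        change f τ (A.ρ (gs * t * gs⁻¹) x + x) = actL gs.1 (f τ (A.ρ t x + x))
        rw [← hfe τ _ _ (hz t ht), A.add, A.mul, A.mul, hxs', hxs])
      rcases h1 with h1 | h1
      · exact h1
      · exfalso
        have h2 : f τ (A.ρ gt x + x) = w01 + w23 := h1
        apply h21_w
        rw [← h2, ← hfe τ _ _ hz0, hfix]
    exact A.eq_of_add h0
  have hst : ∀ g : Gam, g.1 *ᵥ b0 = b0 → A.ρ g x = x :=
    fun g hg => stab_mem (A.stb x) hgt hxh hxs hgm g hg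
  obtain ⟨sec, hs0, _, hsq, hse⟩ := exists_sec q hq hqe hx hst
  -- the defect
  set k : V4 → V4 → X := fun v w => sec v + sec w + sec (v + w) with hk
  have hqd : ∀ v w, q (k v w) = 0 := by
    intro v w
    simp only [hk]
    rw [hq, hq, hsq, hsq, hsq, hb]
  have hce : ∀ τ, ∃ c : ZMod 2, f τ (k b0 b1) = sm c (wdg b0 b1) := by
    intro τ
    have e1 : actL gr.1 (f τ (k b0 b1)) = f τ (k b0 b1) := by
      rw [← hfe τ _ _ (hqd _ _)]
      exact congrArg (f τ) (defect_gr hse)
    have e2 : actL gs.1 (f τ (k b0 b1)) = f τ (k b0 b1) := by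
      rw [← hfe τ _ _ (hqd _ _)]
      exact congrArg (f τ) (defect_of_fix hse gs gs_b0 gs_b1)
    have e3 : actL u02.1 (f τ (k b0 b1)) = f τ (k b0 b1) := by
      rw [← hfe τ _ _ (hqd _ _)]
      exact congrArg (f τ) (defect_of_fix hse u02 u02_b0 u02_b1)
    rcases L_k _ e1 e2 e3 with h | h
    · exact ⟨0, by rw [h, sm_zero]⟩
    · exact ⟨1, by rw [h, sm_one, w01_eq]⟩
  choose c hc using hce
  have hfk : ∀ τ v w, f τ (k v w) = c τ • wdg v w := by
    intro τ v w
    by_cases h : v = 0 ∨ w = 0 ∨ v = w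
    · have h1 : k v w = 0 := defect_zero A hs0 v w h
      have h2 : wdg v w = 0 := by
        rcases h with rfl | rfl | rfl
        · have := wdg_add_left 0 0 w
          rw [add_zero] at this
          exact left_eq_add.1 this
        · have := wdg_add_right v 0 0
          rw [add_zero] at this
          exact left_eq_add.1 this
        · exact wdg_self v
      rw [h1, hf0, h2, smul_zero]
    · push Not at h
      obtain ⟨g, hg0, hg1⟩ := exists_g2 v w h.1 h.2.1 h.2.2
      have h1 : k v w = A.ρ g (k b0 b1) := by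
        have := defect_fix hse g b0 b1
        rw [hg0, hg1] at this
        exact this.symm
      rw [h1, hfe τ _ _ (hqd _ _), hc τ, sm_eq]
      rcases z01 (c τ) with h2 | h2
      · rw [h2, zero_smul, zero_smul]
        have := actL_add g.1 0 0
        rw [add_zero] at this
        exact left_eq_add.1 this
      · rw [h2, one_smul, one_smul, actL_wdg, hg0, hg1]
  -- `κ`
  set b2 : V4 := ![0, 0, 1, 0] with hb2
  set b3 : V4 := ![0, 0, 0, 1] with hb3
  have hqs : ∀ (a : ZMod 2) {y : X}, q y = 0 → q (sm a y) = 0 := by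
    intro a y hy
    rcases z01 a with rfl | rfl
    · rw [sm_zero, hq0]
    · rw [sm_one, hy]
  have hfs : ∀ τ (a : ZMod 2) (y : X), f τ (sm a y) = sm a (f τ y) := by
    intro τ a y
    rcases z01 a with rfl | rfl
    · rw [sm_zero, sm_zero, hf0]
    · rw [sm_one, sm_one]
  have hqadd : ∀ {y z : X}, q y = 0 → q z = 0 → q (y + z) = 0 := by
    intro y z hy hz
    rw [hq, hy, hz, add_zero]
  set κ : V6 → X := fun l => sm (l 0) (k b0 b1) + sm (l 1) (k b0 b2) + sm (l 2) (k b0 b3) +
    sm (l 3) (k b1 b2) + sm (l 4) (k b1 b3) + sm (l 5) (k b2 b3) with hκ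
  have q1 : ∀ (a : ZMod 2) v w, q (sm a (k v w)) = 0 := fun a v w => hqs a (hqd v w)
  have hqκ : ∀ l, q (κ l) = 0 := by
    intro l
    simp only [hκ]
    exact hqadd (hqadd (hqadd (hqadd (hqadd (q1 _ _ _) (q1 _ _ _)) (q1 _ _ _)) (q1 _ _ _))
      (q1 _ _ _)) (q1 _ _ _)
  have hfκ : ∀ τ l, f τ (κ l) = c τ • l := by
    intro τ l
    simp only [hκ]
    rw [hf τ _ _ (hqadd (hqadd (hqadd (hqadd (q1 _ _ _) (q1 _ _ _)) (q1 _ _ _)) (q1 _ _ _))
        (q1 _ _ _)) (q1 _ _ _),
      hf τ _ _ (hqadd (hqadd (hqadd (q1 _ _ _) (q1 _ _ _)) (q1 _ _ _)) (q1 _ _ _)) (q1 _ _ _),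
      hf τ _ _ (hqadd (hqadd (q1 _ _ _) (q1 _ _ _)) (q1 _ _ _)) (q1 _ _ _),
      hf τ _ _ (hqadd (q1 _ _ _) (q1 _ _ _)) (q1 _ _ _), hf τ _ _ (q1 _ _ _) (q1 _ _ _)]
    simp only [hfs, hfk]
    have hcomm : ∀ (a : ZMod 2) (u : V6), sm a (c τ • u) = c τ • sm a u := by
      intro a u
      rcases z01 a with rfl | rfl
      · rw [sm_zero, sm_zero, smul_zero]
      · rw [sm_one, sm_one]
    simp only [hcomm, ← smul_add]
    rw [sum_w]
  refine ⟨sec, κ, hsq, hse, hqκ, ?_, ?_, ?_⟩
  · intro l l'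
    apply hsep2 _ _ (hqκ _) (hqadd (hqκ _) (hqκ _))
    intro τ
    rw [hfκ, hf τ _ _ (hqκ _) (hqκ _), hfκ, hfκ, smul_add]
  · intro g l
    apply hsep2 _ _ (hqκ _) (hqk _ (hqκ _))
    intro τ
    rw [hfκ, hfe τ _ _ (hqκ _), hfκ]
    rcases z01 (c τ) with h2 | h2
    · rw [h2, zero_smul, zero_smul]
      have := actL_add g.1 0 0
      rw [add_zero] at this
      exact (left_eq_add.1 this).symm
    · rw [h2, one_smul, one_smul]
  · intro m m'
    have h1 : k m m' = κ (wdg m m') := by
      apply hsep2 _ _ (hqd _ _) (hqκ _)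
      intro τ
      rw [hfk, hfκ]
    rw [← h1]
    simp only [hk]
    have h2 := A.two (sec m)
    have h3 := A.two (sec m')
    calc sec (m + m') = (sec m + sec m) + (sec m' + sec m') + sec (m + m') := by
          rw [h2, h3, add_zero, zero_add]
      _ = _ := by abel

end H48

theorem bM4 (_h1 : S_END) (h2 : S_COCL) : S_M4 := by
  classical
  intro a m2 hm2 X _ _ _ q hsurj hHg
  cases hm2 with
  | vv =>
    obtain ⟨x0, hx0⟩ := hsurj vE0
    obtain ⟨sec, κ, c1, c2, c3, c4, c5, c6⟩ := m14core h2 (modAct X) (fun x => (q x : MV))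
      (fun x y => map_add q x y)
      (fun g x => (map_act q g x).trans (act_MV g (q x)))
      (T := LinearMap.ker q →ₗ[RG] ML)
      (fun f x => if h : q x = 0 then (f ⟨x, h⟩ : ML) else (0 : ML))
      (by
        intro f x y hx hy
        have hx' : q x = 0 := hx
        have hy' : q y = 0 := hy
        have hxy : q (x + y) = 0 := by rw [map_add, hx', hy', add_zero]
        simp only [dif_pos hx', dif_pos hy', dif_pos hxy]
        exact map_add f ⟨x, hx'⟩ ⟨y, hy'⟩)
      (by
        intro f g x hx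
        have hx' : q x = 0 := hx
        have hgx : q (act g x) = 0 := by rw [map_act, hx', act_zero]
        change (if h : q (act g x) = 0 then (f ⟨act g x, h⟩ : ML) else (0 : ML)) = _
        simp only [dif_pos hx', dif_pos hgx]
        exact (map_act f g ⟨x, hx'⟩).trans (act_ML g _))
      (by
        intro x hx hf
        have hx' : q x = 0 := hx
        have h3 := hHg ⟨x, hx'⟩ (by
          intro f
          have := hf f
          simp only [dif_pos hx'] at this
          exact this)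
        exact congrArg Subtype.val h3) hx0
    refine ⟨sec, mkLin (AddMonoidHom.mk' κ c4) ?_, c1, ?_, c3, c6⟩
    · intro g m
      exact (congrArg κ (act_ML g m)).trans (c5 g m)
    · intro g m
      exact (congrArg sec (act_MV g m)).trans (c2 g m)
  | dd =>
    obtain ⟨x0, hx0⟩ := hsurj dE0
    obtain ⟨sec, κ, c1, c2, c3, c4, c5, c6⟩ := m14core h2 (twAct X) (fun x => (q x : MD))
      (fun x y => map_add q x y)
      (fun g x => (map_act q (sig g) x).trans (act_MD' g (q x)))
      (T := LinearMap.ker q →ₗ[RG] ML)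
      (fun f x => hs (if h : q x = 0 then (f ⟨x, h⟩ : ML) else (0 : ML)))
      (by
        intro f x y hx hy
        have hx' : q x = 0 := hx
        have hy' : q y = 0 := hy
        have hxy : q (x + y) = 0 := by rw [map_add, hx', hy', add_zero]
        simp only [dif_pos hx', dif_pos hy', dif_pos hxy]
        exact (congrArg hs (map_add f ⟨x, hx'⟩ ⟨y, hy'⟩)).trans (hs_add _ _))
      (by
        intro f g x hx
        have hx' : q x = 0 := hx
        have hgx : q (act (sig g) x) = 0 := by rw [map_act, hx', act_zero]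
        change hs (if h : q (act (sig g) x) = 0 then (f ⟨act (sig g) x, h⟩ : ML) else (0 : ML)) = _
        simp only [dif_pos hx', dif_pos hgx]
        have h4 : (f ⟨act (sig g) x, hgx⟩ : ML) = actL (sig g).1 (f ⟨x, hx'⟩) :=
          (map_act f (sig g) ⟨x, hx'⟩).trans (act_ML (sig g) _)
        have h5 := hs_actL (sig g).1 (g.1ᵀ) (by
          change (g⁻¹).1ᵀ * g.1ᵀ = 1
          rw [← Matrix.transpose_mul, ← Units.val_mul, mul_inv_cancel, Units.val_one,
            Matrix.transpose_one]) (f ⟨x, hx'⟩)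
        rw [Matrix.transpose_transpose] at h5
        exact (congrArg hs h4).trans h5)
      (by
        intro x hx hf
        have hx' : q x = 0 := hx
        have h3 := hHg ⟨x, hx'⟩ (by
          intro f
          have h6 := hf f
          simp only [dif_pos hx'] at h6
          have h7 := congrArg hs h6
          rw [hs_hs, hs_zero] at h7
          exact h7)
        exact congrArg Subtype.val h3) hx0
    refine ⟨sec, mkLin (AddMonoidHom.mk' (fun l => κ (hs l)) ?_) ?_, c1, ?_, fun l => c3 (hs l), ?_⟩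
    · intro l l'
      exact (congrArg κ (hs_add l l')).trans (c4 _ _)
    · intro g m
      have h8 := c5 (sig g) (hs m)
      change κ (actL (sig g).1 (hs m)) = act (sig (sig g)) (κ (hs m)) at h8
      rw [sig_sig] at h8
      refine Eq.trans ?_ h8
      change κ (hs (act g (m : ML) : ML)) = _
      congr 1
      have h5 := hs_actL g.1 (g⁻¹).1 (gam_mul_inv g) m
      exact (congrArg hs (act_ML g m)).trans h5
    · intro g m
      have h := c2 (sig g) m
      change sec ((sig g).1 *ᵥ m) = act (sig (sig g)) (sec m) at h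
      rw [sig_sig] at h
      refine Eq.trans ?_ h
      exact congrArg sec (act_MD g m)
    · intro m m'
      have h9 := c6 m m'
      have h10 : κ (wdg m m') = κ (hs (wdgD m m')) := by rw [wdgD, hs_hs]
      exact h9.trans (congrArg (fun u => sec m + sec m' + u) h10)

end Pool.Agent.A8
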