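import Pool.Agent.Helper48.A8.Tools

/-! Equivariant sections over `V` (helper48; for the blocks M12, M14, M15 of the A8 project). -/

set_option autoImplicit false

namespace Pool.Agent.A8.H48

open Matrix Pool.Agent.A8

/-- an action of `GL_4(2)` on an elementary abelian 2-group. -/
structure Act2 (X : Type) [AddCommGroup X] where
  ρ : Gam → X → X
  add : ∀ g x y, ρ g (x + y) = ρ g x + ρ g y
  one : ∀ x, ρ 1 x = x
  mul : ∀ g h x, ρ (g * h) x = ρ g (ρ h x)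
  two : ∀ x : X, x + x = 0

/-- `e₀`, `e₁` -/
abbrev b0 : V4 := ![1, 0, 0, 0]
abbrev b1 : V4 := ![0, 1, 0, 0]

/-- Singer cycle -/
def cc : Gam := mkG !![0,0,0,1; 1,0,0,1; 0,1,0,0; 0,0,1,0] !![1,1,0,0; 0,0,1,0; 0,0,0,1; 1,0,0,0]
  (by decide +kernel) (by decide +kernel)

theorem trans0 : ∀ v : V4, v ≠ 0 → ∃ k : Fin 15, (cc ^ (k : ℕ)).1 *ᵥ b0 = v := by decide +kernel

theorem trans1 : ∀ w : V4, w ≠ 0 → w ≠ b0 → ∃ j : Fin 7, ∃ e : Fin 2,
    (gh ^ (j : ℕ) * gt ^ (e : ℕ)).1 *ᵥ b0 = b0 ∧ (gh ^ (j : ℕ) * gt ^ (e : ℕ)).1 *ᵥ b1 = w := by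
  decide +kernel

theorem exists_g (v : V4) (hv : v ≠ 0) : ∃ g : Gam, g.1 *ᵥ b0 = v := by
  obtain ⟨k, hk⟩ := trans0 v hv
  exact ⟨_, hk⟩

theorem inv_mulVec (g : Gam) (v : V4) : (g⁻¹).1 *ᵥ (g.1 *ᵥ v) = v := by
  rw [Matrix.mulVec_mulVec, ← Units.val_mul, inv_mul_cancel, Units.val_one, Matrix.one_mulVec]

theorem mulVec_inv (g : Gam) (v : V4) : g.1 *ᵥ ((g⁻¹).1 *ᵥ v) = v := by
  rw [Matrix.mulVec_mulVec, ← Units.val_mul, mul_inv_cancel, Units.val_one, Matrix.one_mulVec]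

theorem mulVec_inj (g : Gam) {v w : V4} (h : g.1 *ᵥ v = g.1 *ᵥ w) : v = w := by
  rw [← inv_mulVec g v, h, inv_mulVec]

theorem exists_g2 (v w : V4) (hv : v ≠ 0) (hw : w ≠ 0) (hvw : v ≠ w) :
    ∃ g : Gam, g.1 *ᵥ b0 = v ∧ g.1 *ᵥ b1 = w := by
  obtain ⟨g, hg⟩ := exists_g v hv
  have h1 : (g⁻¹).1 *ᵥ w ≠ 0 := by
    intro h
    apply hw
    have h2 := congrArg (fun u => g.1 *ᵥ u) h
    simp only [mulVec_inv, Matrix.mulVec_zero] at h2
    exact h2
  have h2 : (g⁻¹).1 *ᵥ w ≠ b0 := by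
    intro h
    apply hvw
    rw [← hg, ← h, mulVec_inv]
  obtain ⟨j, e, h3, h4⟩ := trans1 _ h1 h2
  refine ⟨g * (gh ^ (j : ℕ) * gt ^ (e : ℕ)), ?_, ?_⟩
  · rw [Units.val_mul, ← Matrix.mulVec_mulVec, h3, hg]
  · rw [Units.val_mul, ← Matrix.mulVec_mulVec, h4, mulVec_inv]

section
variable {X : Type} [AddCommGroup X] (A : Act2 X)

include A in
theorem Act2.eq_of_add {x y : X} (h : x + y = 0) : x = y := by
  have h1 := A.two y
  calc x = x + (y + y) := by rw [h1, add_zero]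
    _ = (x + y) + y := by abel
    _ = y := by rw [h, zero_add]

theorem Act2.zero (g : Gam) : A.ρ g 0 = 0 := by
  have h := A.add g 0 0
  rw [add_zero] at h
  exact left_eq_add.1 h

/-- stabiliser of a vector -/
def Act2.stb (x : X) : Subgroup Gam where
  carrier := {g | A.ρ g x = x}
  one_mem' := A.one x
  mul_mem' := by
    intro a b ha hb
    change A.ρ (a * b) x = x
    rw [A.mul, hb, ha]
  inv_mem' := by
    intro a ha
    change A.ρ a⁻¹ x = x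
    have h : A.ρ a x = x := ha
    conv_lhs => rw [← h]
    rw [← A.mul, inv_mul_cancel, A.one]

theorem Act2.mem_stb {x : X} {g : Gam} : g ∈ A.stb x ↔ A.ρ g x = x := Iff.rfl

theorem gh_gs : gh * gs = gs * gh ^ 4 := by
  apply Units.ext; decide +kernel
theorem gh_gs2 : gh * (gs * gs) = gs * gs * gh ^ 2 := by
  apply Units.ext; decide +kernel
theorem gs3 : gs * gs * gs = 1 := by
  apply Units.ext; decide +kernel

variable {A}

/-- averaging over the group of order 21 -/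
theorem exists_F (q : X → V4) (hq : ∀ x y, q (x + y) = q x + q y)
    (hqe : ∀ g x, q (A.ρ g x) = g.1 *ᵥ q x) {x0 : X} (hx0 : q x0 = b0) :
    ∃ x, q x = b0 ∧ A.ρ gh x = x ∧ A.ρ gs x = x := by
  set y := x0 + A.ρ gh x0 + A.ρ (gh ^ 2) x0 + A.ρ (gh ^ 3) x0 + A.ρ (gh ^ 4) x0 +
    A.ρ (gh ^ 5) x0 + A.ρ (gh ^ 6) x0 with hy
  have h7 : gh * gh ^ 6 = 1 := by rw [← pow_succ', gh_7]
  have hyg : A.ρ gh y = y := by
    rw [hy]
    simp only [A.add, ← A.mul, h7, A.one, ← pow_succ', ← pow_two]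
    norm_num
    abel
  have hyk : ∀ k : ℕ, A.ρ (gh ^ k) y = y := by
    intro k
    induction k with
    | zero => rw [pow_zero, A.one]
    | succ k ih => rw [pow_succ, A.mul, hyg, ih]
  have hgh : ∀ k : Fin 7, (gh ^ (k : ℕ)).1 *ᵥ b0 = b0 := by decide +kernel
  have hqy : q y = b0 := by
    rw [hy]
    simp only [hq, hqe, hx0]
    have e1 := hgh 1
    have e2 := hgh 2
    have e3 := hgh 3
    have e4 := hgh 4
    have e5 := hgh 5
    have e6 := hgh 6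
    simp only [show ((1 : Fin 7) : ℕ) = 1 from rfl, pow_one] at e1
    rw [e1, show (gh ^ 2).1 *ᵥ b0 = b0 from e2, show (gh ^ 3).1 *ᵥ b0 = b0 from e3,
      show (gh ^ 4).1 *ᵥ b0 = b0 from e4, show (gh ^ 5).1 *ᵥ b0 = b0 from e5,
      show (gh ^ 6).1 *ᵥ b0 = b0 from e6]
    decide +kernel
  refine ⟨y + A.ρ gs y + A.ρ (gs * gs) y, ?_, ?_, ?_⟩
  · simp only [hq, hqe, hqy]
    decide +kernel
  · rw [A.add, A.add, hyg, ← A.mul, ← A.mul, gh_gs, gh_gs2, A.mul gs, A.mul (gs * gs), hyk, hyk]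
  · rw [A.add, A.add, ← A.mul, ← A.mul, ← mul_assoc, gs3, A.one]
    abel

/-- the equivariant section -/
theorem exists_sec (q : X → V4) (hq : ∀ x y, q (x + y) = q x + q y)
    (hqe : ∀ g x, q (A.ρ g x) = g.1 *ᵥ q x) {x : X} (hx : q x = b0)
    (hst : ∀ g : Gam, g.1 *ᵥ b0 = b0 → A.ρ g x = x) :
    ∃ sec : V4 → X, sec 0 = 0 ∧ sec b0 = x ∧ (∀ v, q (sec v) = v) ∧
      ∀ (g : Gam) v, sec (g.1 *ᵥ v) = A.ρ g (sec v) := by
  classical
  have hq0 : q 0 = 0 := by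
    have h := hq 0 0
    rw [add_zero] at h
    exact left_eq_add.1 h
  choose! r hr using exists_g
  have key : ∀ g h : Gam, g.1 *ᵥ b0 = h.1 *ᵥ b0 → A.ρ g x = A.ρ h x := by
    intro g h hgh
    have h1 : (h⁻¹ * g).1 *ᵥ b0 = b0 := by
      rw [Units.val_mul, ← Matrix.mulVec_mulVec, hgh, inv_mulVec]
    have h2 := hst _ h1
    have h3 := congrArg (A.ρ h) h2
    rw [← A.mul, mul_inv_cancel_left] at h3
    exact h3
  refine ⟨fun v => if v = 0 then 0 else A.ρ (r v) x, by simp, ?_, ?_, ?_⟩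
  · have h0 : b0 ≠ (0 : V4) := by decide +kernel
    simp only [if_neg h0]
    exact hst _ (hr _ h0)
  · intro v
    by_cases hv : v = 0
    · simp only [if_pos hv]
      rw [hq0, hv]
    · simp only [if_neg hv, hqe, hx, hr v hv]
  · intro g v
    by_cases hv : v = 0
    · simp only [if_pos hv, hv, Matrix.mulVec_zero, if_true, A.zero]
    · have hgv : g.1 *ᵥ v ≠ 0 := by
        intro h
        apply hv
        apply mulVec_inj g
        rw [h, Matrix.mulVec_zero]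
      simp only [if_neg hv, if_neg hgv]
      rw [← A.mul]
      apply key
      rw [hr _ hgv, Units.val_mul, ← Matrix.mulVec_mulVec, hr v hv]

theorem gr_b0 : gr.1 *ᵥ b0 = b1 := by decide +kernel
theorem gr_b1 : gr.1 *ᵥ b1 = b0 + b1 := by decide +kernel
theorem gr_b01 : gr.1 *ᵥ (b0 + b1) = b0 := by decide +kernel
theorem gs_b0 : gs.1 *ᵥ b0 = b0 := by decide +kernel
theorem gs_b1 : gs.1 *ᵥ b1 = b1 := by decide +kernel

/-- the defect of additivity of a section -/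
theorem defect_fix {sec : V4 → X} (hse : ∀ (g : Gam) v, sec (g.1 *ᵥ v) = A.ρ g (sec v))
    (g : Gam) (v w : V4) :
    A.ρ g (sec v + sec w + sec (v + w)) =
      sec (g.1 *ᵥ v) + sec (g.1 *ᵥ w) + sec (g.1 *ᵥ v + g.1 *ᵥ w) := by
  rw [A.add, A.add, ← hse, ← hse, ← hse, Matrix.mulVec_add]

theorem defect_gr {sec : V4 → X} (hse : ∀ (g : Gam) v, sec (g.1 *ᵥ v) = A.ρ g (sec v)) :
    A.ρ gr (sec b0 + sec b1 + sec (b0 + b1)) = sec b0 + sec b1 + sec (b0 + b1) := by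
  rw [A.add, A.add, ← hse, ← hse, ← hse, gr_b0, gr_b1, gr_b01]
  abel

theorem defect_of_fix {sec : V4 → X} (hse : ∀ (g : Gam) v, sec (g.1 *ᵥ v) = A.ρ g (sec v))
    (g : Gam) (h0 : g.1 *ᵥ b0 = b0) (h1 : g.1 *ᵥ b1 = b1) :
    A.ρ g (sec b0 + sec b1 + sec (b0 + b1)) = sec b0 + sec b1 + sec (b0 + b1) := by
  rw [defect_fix hse, h0, h1]

theorem defect_zero (A : Act2 X) {sec : V4 → X} (hs0 : sec 0 = 0) (v w : V4)
    (h : v = 0 ∨ w = 0 ∨ v = w) : sec v + sec w + sec (v + w) = 0 := by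
  have h2 : ∀ u : V4, u + u = 0 := fun u => funext fun i => zadd _
  rcases h with rfl | rfl | rfl
  · rw [hs0, zero_add, zero_add, A.two]
  · rw [hs0, add_zero, add_zero, A.two]
  · rw [h2, hs0, add_zero, A.two]

end

end Pool.Agent.A8.H48
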