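import Pool.Agent.Helper89.A8.Stmts

/-! Tools for the blocks M12, M14, M15 of the A8 project (helper48): the stabiliser of `e₀` in
`GL_4(2)`, transitivity, equivariant sections. -/

set_option autoImplicit false

namespace Pool.Agent.A8.H48

open Matrix Pool.Agent.A8

/-- embedding of `3 × 3` matrices -/
def emb (A : Matrix (Fin 3) (Fin 3) (ZMod 2)) : M4 :=
  !![1, 0, 0, 0; 0, A 0 0, A 0 1, A 0 2; 0, A 1 0, A 1 1, A 1 2; 0, A 2 0, A 2 1, A 2 2]

theorem emb_one : emb 1 = 1 := by decide +kernel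

theorem emb_diag_one : emb (Matrix.diagonal (1 : Fin 3 → ZMod 2)) = 1 := by decide +kernel

theorem emb_mul (A B : Matrix (Fin 3) (Fin 3) (ZMod 2)) : emb (A * B) = emb A * emb B := by
  ext i j
  fin_cases i <;> fin_cases j <;>
    simp [emb, Matrix.mul_apply, Fin.sum_univ_four, Fin.sum_univ_three]

/-- `gg gh gg⁻¹` -/
def gm : Gam := gg * gh * gg⁻¹

theorem emb_mem (S : Subgroup Gam) (h1 : gh ∈ S) (h2 : gs ∈ S) (h3 : gm ∈ S)
    (A : Matrix (Fin 3) (Fin 3) (ZMod 2)) (hA : A.det ≠ 0) :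
    ∀ g : Gam, g.1 = emb A → g ∈ S := by
  refine Matrix.diagonal_transvection_induction_of_det_ne_zero
    (fun M => ∀ g : Gam, g.1 = emb M → g ∈ S) A hA ?_ ?_ ?_
  · intro D hD g hg
    have hD1 : D = 1 := by
      rw [Matrix.det_diagonal] at hD
      funext i
      have h := Finset.prod_ne_zero_iff.1 hD i (Finset.mem_univ i)
      have h01 : ∀ a : ZMod 2, a ≠ 0 → a = 1 := by decide
      exact h01 _ h
    have : g = 1 := by
      apply Units.ext
      rw [hg, hD1, emb_diag_one]
      rfl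
    rw [this]
    exact S.one_mem
  · intro t g hg
    obtain ⟨i, j, hij, c⟩ := t
    have hc : c = 0 ∨ c = 1 := (by decide : ∀ c : ZMod 2, c = 0 ∨ c = 1) c
    rcases hc with rfl | rfl
    · have : g = 1 := by
        apply Units.ext
        rw [hg]
        simp only [TransvectionStruct.toMatrix, transvection_zero]
        exact emb_one
      rw [this]
      exact S.one_mem
    · have key : ∀ w : Gam, w ∈ S → w.1 = emb (transvection i j 1) → g ∈ S := by
        intro w hw hw'
        have : g = w := by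
          apply Units.ext
          rw [hg, hw']
          rfl
        rw [this]
        exact hw
      have m : ∀ {x y : Gam}, x ∈ S → y ∈ S → x * y ∈ S := fun hx hy => S.mul_mem hx hy
      fin_cases i <;> fin_cases j
      · exact absurd rfl hij
      · exact key (gs*gh*gm*gs*gm) (m (m (m (m h2 h1) h3) h2) h3) (by decide +kernel)
      · exact key (gh*gm*gs*gm*gs) (m (m (m (m h1 h3) h2) h3) h2) (by decide +kernel)
      · exact key (gh*gm*gh*gs*gh) (m (m (m (m h1 h3) h1) h2) h1) (by decide +kernel)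
      · exact absurd rfl hij
      · exact key (gh*gh*gm*gm*gh*gh) (m (m (m (m (m h1 h1) h3) h3) h1) h1) (by decide +kernel)
      · exact key (gh*gh*gh*gm*gm*gh) (m (m (m (m (m h1 h1) h1) h3) h3) h1) (by decide +kernel)
      · exact key (gh*gh*gm*gm*gs*gh) (m (m (m (m (m h1 h1) h3) h3) h2) h1) (by decide +kernel)
      · exact absurd rfl hij
  · intro A B hA hB ihA ihB g hg
    have mk : ∀ C : Matrix (Fin 3) (Fin 3) (ZMod 2), C.det ≠ 0 → ∃ c : Gam, c.1 = emb C := by
      intro C hC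
      refine ⟨⟨emb C, emb C⁻¹, ?_, ?_⟩, rfl⟩
      · rw [← emb_mul, Matrix.mul_nonsing_inv _ (isUnit_iff_ne_zero.2 hC), emb_one]
      · rw [← emb_mul, Matrix.nonsing_inv_mul _ (isUnit_iff_ne_zero.2 hC), emb_one]
    obtain ⟨a, ha⟩ := mk A hA
    obtain ⟨b, hb⟩ := mk B hB
    have : g = a * b := by
      apply Units.ext
      rw [Units.val_mul, hg, ha, hb, emb_mul]
    rw [this]
    exact S.mul_mem (ihA a ha) (ihB b hb)

theorem TT_mem (S : Subgroup Gam) (h0 : gt ∈ S) (h1 : gh ∈ S) : ∀ t ∈ TT, t ∈ S := by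
  intro t ht
  obtain ⟨ht0, ht1⟩ := ht
  have h00 : t.1 0 0 = 1 := ht0
  have key : ∀ w : Gam, w ∈ S → w.1 0 = t.1 0 → (∀ i : Fin 3, w.1 i.succ = (1 : M4) i.succ) →
      t ∈ S := by
    intro w hw hw0 hw1
    have : t = w := by
      apply Units.ext
      funext i
      refine Fin.cases hw0.symm (fun i => ?_) i
      rw [hw1 i]
      funext j
      exact ht1 i j
    rw [this]; exact hw
  have hrow : t.1 0 = ![1, t.1 0 1, t.1 0 2, t.1 0 3] := by
    funext j
    fin_cases j
    · exact h00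
    · rfl
    · rfl
    · rfl
  have m : ∀ {x y : Gam}, x ∈ S → y ∈ S → x * y ∈ S := fun hx hy => S.mul_mem hx hy
  have h2 : ∀ a : ZMod 2, a = 0 ∨ a = 1 := by decide
  rcases h2 (t.1 0 1) with ha | ha <;> rcases h2 (t.1 0 2) with hb | hb <;>
    rcases h2 (t.1 0 3) with hc | hc <;> rw [ha, hb, hc] at hrow
  · exact key 1 S.one_mem (by rw [hrow]; decide +kernel) (by decide +kernel)
  · exact key (gh*gh*gh*gh*gh*gh*gt*gh) (m (m (m (m (m (m (m h1 h1) h1) h1) h1) h1) h0) h1) (by rw [hrow]; decide +kernel) (by decide +kernel)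
  · exact key (gh*gh*gh*gh*gh*gt*gh*gh) (m (m (m (m (m (m (m h1 h1) h1) h1) h1) h0) h1) h1) (by rw [hrow]; decide +kernel) (by decide +kernel)
  · exact key (gh*gh*gh*gt*gh*gh*gh*gh) (m (m (m (m (m (m (m h1 h1) h1) h0) h1) h1) h1) h1) (by rw [hrow]; decide +kernel) (by decide +kernel)
  · exact key (gt) h0 (by rw [hrow]; decide +kernel) (by decide +kernel)
  · exact key (gh*gh*gh*gh*gt*gh*gh*gh) (m (m (m (m (m (m (m h1 h1) h1) h1) h0) h1) h1) h1) (by rw [hrow]; decide +kernel) (by decide +kernel)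
  · exact key (gh*gt*gh*gh*gh*gh*gh*gh) (m (m (m (m (m (m (m h1 h0) h1) h1) h1) h1) h1) h1) (by rw [hrow]; decide +kernel) (by decide +kernel)
  · exact key (gh*gh*gt*gh*gh*gh*gh*gh) (m (m (m (m (m (m (m h1 h1) h0) h1) h1) h1) h1) h1) (by rw [hrow]; decide +kernel) (by decide +kernel)

/-- the stabiliser of `e₀` is generated by `gt, gh, gs, gg gh gg⁻¹` -/
theorem stab_mem (S : Subgroup Gam) (h0 : gt ∈ S) (h1 : gh ∈ S) (h2 : gs ∈ S) (h3 : gm ∈ S)
    (g : Gam) (hg : g.1 *ᵥ ![1, 0, 0, 0] = ![1, 0, 0, 0]) : g ∈ S := by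
  -- the first column
  have hcol : ∀ i, g.1 i 0 = (![1, 0, 0, 0] : Fin 4 → ZMod 2) i := by
    intro i
    have := congrFun hg i
    rw [← this]
    simp [Matrix.mulVec, dotProduct, Fin.sum_univ_four]
  have c0 : g.1 0 0 = 1 := hcol 0
  have c1 : g.1 1 0 = 0 := hcol 1
  have c2 : g.1 2 0 = 0 := hcol 2
  have c3 : g.1 3 0 = 0 := hcol 3
  -- the lower right block
  set A : Matrix (Fin 3) (Fin 3) (ZMod 2) := Matrix.of fun i j => g.1 i.succ j.succ with hA
  have hAapp : ∀ i j : Fin 3, A i j = g.1 i.succ j.succ := fun i j => rfl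
  -- the same for the inverse
  have hg' : (g⁻¹).1 *ᵥ ![1, 0, 0, 0] = ![1, 0, 0, 0] := by
    conv_lhs => rw [← hg]
    rw [Matrix.mulVec_mulVec, ← Units.val_mul, inv_mul_cancel, Units.val_one, Matrix.one_mulVec]
  have hcol' : ∀ i, (g⁻¹).1 i 0 = (![1, 0, 0, 0] : Fin 4 → ZMod 2) i := by
    intro i
    have := congrFun hg' i
    rw [← this]
    simp [Matrix.mulVec, dotProduct, Fin.sum_univ_four]
  set B : Matrix (Fin 3) (Fin 3) (ZMod 2) := Matrix.of fun i j => (g⁻¹).1 i.succ j.succ with hB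
  have hAB : A * B = 1 := by
    have h4 : g.1 * (g⁻¹).1 = 1 := gam_mul_inv g
    ext i j
    have h5 := congrFun (congrFun h4 i.succ) j.succ
    have h6 : g.1 i.succ 0 = 0 := by
      fin_cases i
      · exact c1
      · exact c2
      · exact c3
    rw [Matrix.mul_apply, Fin.sum_univ_succ, h6, zero_mul, zero_add] at h5
    rw [Matrix.mul_apply]
    refine Eq.trans ?_ (h5.trans ?_)
    · rfl
    · simp [Matrix.one_apply, Fin.succ_inj]
  have hBA : B * A = 1 := mul_eq_one_comm.1 hAB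
  have hdet : A.det ≠ 0 := by
    intro h
    have h7 := congrArg Matrix.det hAB
    rw [Matrix.det_mul, h, zero_mul, Matrix.det_one] at h7
    exact zero_ne_one h7
  let a : Gam := ⟨emb A, emb B, by rw [← emb_mul, hAB, emb_one], by
    rw [← emb_mul, hBA, emb_one]⟩
  have ha : a ∈ S := emb_mem S h1 h2 h3 A hdet a rfl
  have ht : g * a⁻¹ ∈ TT := by
    have hinv : (a⁻¹).1 = emb B := rfl
    have hrow : ∀ i : Fin 3, g.1 i.succ = (emb A) i.succ := by
      intro i
      funext j
      refine Fin.cases ?_ (fun j => ?_) j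
      · fin_cases i
        · exact c1
        · exact c2
        · exact c3
      · have : emb A i.succ j.succ = A i j := by
          fin_cases i <;> fin_cases j <;> rfl
        rw [this, hAapp]
    refine ⟨?_, ?_⟩
    · rw [Units.val_mul, hinv, Matrix.mul_apply, Fin.sum_univ_four, c0]
      simp [emb]
    · intro i j
      rw [Units.val_mul, hinv, Matrix.mul_apply]
      have h8 : emb A * emb B = 1 := by rw [← emb_mul, hAB, emb_one]
      rw [← h8, Matrix.mul_apply, hrow i]
  have h9 : g = g * a⁻¹ * a := by rw [inv_mul_cancel_right]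
  rw [h9]
  exact S.mul_mem (TT_mem S h0 h1 _ ht) ha

end Pool.Agent.A8.H48
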